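import Pool.Agent.Y738.PE.Stm

/-!
# Project PE (helper738), job J5: existence of tilings and nonvanishing

Proved by helper794.
-/

set_option autoImplicit false

open scoped BigOperators ComplexConjugate Classical

noncomputable section

namespace Pool.Agent.Y794.PE

open Pool.Agent.Y738.PE

lemma pred_val {L : ℕ} [NeZero L] (x : ZMod L) :
    (x - 1).val = if x.val = 0 then L - 1 else x.val - 1 := by
  have hL : 0 < L := Nat.pos_of_ne_zero (NeZero.ne L)
  split_ifs with h
  · have hx : x = 0 := (ZMod.val_eq_zero x).1 h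
    subst hx
    have h1 : ((0 : ZMod L) - 1) = ((L - 1 : ℕ) : ZMod L) := by
      rw [Nat.cast_sub hL, ZMod.natCast_self, Nat.cast_one]
    rw [h1, ZMod.val_cast_of_lt (by omega)]
  · have h1 : x - 1 = ((x.val - 1 : ℕ) : ZMod L) := by
      rw [Nat.cast_sub (by omega), ZMod.natCast_zmod_val, Nat.cast_one]
    rw [h1, ZMod.val_cast_of_lt (by have := ZMod.val_lt x; omega)]

lemma mod_step (c n : ℕ) (hc : 0 < c) (hn : 0 < n) :
    (n % c = 0 ∧ (n - 1) % c + 1 = c) ∨ n % c = (n - 1) % c + 1 := by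
  obtain ⟨k, rfl⟩ : ∃ k, n = k + 1 := ⟨n - 1, by omega⟩
  rw [Nat.add_sub_cancel]
  have h1 := Nat.mod_lt k hc
  by_cases h : k % c + 1 < c
  · right
    rw [← Nat.mod_add_mod, Nat.mod_eq_of_lt h]
  · left
    have h2 : k % c + 1 = c := by omega
    refine ⟨?_, h2⟩
    rw [← Nat.mod_add_mod, h2, Nat.mod_self]

/-- J5a -/
theorem exist : StmExist := by
  intro N L _ hN hL
  obtain ⟨q, hq⟩ : ∃ q, q = L / N := ⟨_, rfl⟩
  obtain ⟨t, ht⟩ : ∃ t, t = L % N := ⟨_, rfl⟩
  have h1 : N * q + t = L := by rw [hq, ht]; exact Nat.div_add_mod L N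
  have h2 : t < N := by rw [ht]; exact Nat.mod_lt _ hN
  have h3 : N ≤ q := by rw [hq, Nat.le_div_iff_mul_le hN, ← sq]; exact hL
  obtain ⟨a, ha⟩ : ∃ a, a + t = q := ⟨q - t, by omega⟩
  have ha1 : 1 ≤ a := by omega
  have hLe : L = N * a + (N + 1) * t := by rw [← h1, ← ha]; ring
  obtain ⟨A, hA⟩ : ∃ A, A = N * a := ⟨_, rfl⟩
  obtain ⟨B, hB⟩ : ∃ B, B = (N + 1) * t := ⟨_, rfl⟩
  rw [← hA, ← hB] at hLe
  have hA0 : 0 < A := by rw [hA]; exact Nat.mul_pos hN ha1
  have hAm : (A - 1) % N + 1 = N := by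
    have h4 : A % N = 0 := by rw [hA]; exact Nat.mul_mod_right N a
    rcases mod_step N A hN hA0 with h5 | h5 <;> omega
  have hBm : 0 < B → (B - 1) % (N + 1) + 1 = N + 1 := by
    intro hB0
    have h4 : B % (N + 1) = 0 := by rw [hB]; exact Nat.mul_mod_right (N + 1) t
    rcases mod_step (N + 1) B (Nat.succ_pos N) hB0 with h5 | h5 <;> omega
  have hm1 : ∀ k, k % N < N + 1 := fun k => lt_trans (Nat.mod_lt k hN) (Nat.lt_succ_self N)
  have hm2 : ∀ k, k % (N + 1) < N + 1 := fun k => Nat.mod_lt k (Nat.succ_pos N)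
  obtain ⟨lab, hlab1, hlab2⟩ : ∃ lab : ℕ → Lab N,
      (∀ k, k < A → lab k = ((0 : Fin 2), (⟨k % N, hm1 k⟩ : Fin (N + 1)))) ∧
      (∀ k, ¬ k < A → lab k = ((1 : Fin 2), (⟨(k - A) % (N + 1), hm2 (k - A)⟩ : Fin (N + 1)))) :=
    ⟨fun k => if k < A then ((0 : Fin 2), (⟨k % N, hm1 k⟩ : Fin (N + 1))) else
      ((1 : Fin 2), (⟨(k - A) % (N + 1), hm2 (k - A)⟩ : Fin (N + 1))),
      fun k hk => if_pos hk, fun k hk => if_neg hk⟩
  refine ⟨fun x => lab x.val, fun x => ⟨?_, ?_⟩⟩
  · show okL (lab x.val)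
    unfold okL
    by_cases hk : x.val < A
    · rw [hlab1 _ hk]
      show x.val % N < N + 0
      exact Nat.mod_lt _ hN
    · rw [hlab2 _ hk]
      exact hm2 _
  · show step (lab (x - 1).val) (lab x.val)
    have hxL := ZMod.val_lt x
    rw [pred_val]
    split_ifs with h0
    · rw [h0, hlab1 0 hA0]
      right
      refine ⟨?_, Nat.zero_mod N⟩
      by_cases hk : L - 1 < A
      · rw [hlab1 _ hk]
        show (L - 1) % N + 1 = N + 0
        have hB0 : B = 0 := by omega
        have h5 : L - 1 = A - 1 := by omega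
        rw [h5, hAm]
        rfl
      · rw [hlab2 _ hk]
        show (L - 1 - A) % (N + 1) + 1 = N + 1
        have hB0 : 0 < B := by omega
        have h5 : L - 1 - A = B - 1 := by omega
        rw [h5, hBm hB0]
    · have hpos : 0 < x.val := Nat.pos_of_ne_zero h0
      by_cases hk : x.val < A
      · have hk' : x.val - 1 < A := by omega
        rw [hlab1 _ hk, hlab1 _ hk']
        rcases mod_step N x.val hN hpos with h5 | h5
        · right
          exact ⟨h5.2, h5.1⟩
        · left
          exact ⟨rfl, h5⟩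
      · by_cases hk' : x.val - 1 < A
        · have hk2 : x.val = A := by omega
          rw [hk2, hlab1 _ (by omega : A - 1 < A), hlab2 _ (lt_irrefl A)]
          right
          refine ⟨hAm, ?_⟩
          show (A - A) % (N + 1) = 0
          rw [Nat.sub_self, Nat.zero_mod]
        · rw [hlab2 _ hk, hlab2 _ hk']
          have h6 : x.val - 1 - A = (x.val - A) - 1 := by omega
          have h7 : 0 < x.val - A := by omega
          rcases mod_step (N + 1) (x.val - A) (Nat.succ_pos N) h7 with h5 | h5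
          · right
            refine ⟨?_, h5.1⟩
            show (x.val - 1 - A) % (N + 1) + 1 = N + 1
            rw [h6]
            exact h5.2
          · left
            refine ⟨rfl, ?_⟩
            show (x.val - A) % (N + 1) = (x.val - 1 - A) % (N + 1) + 1
            rw [h6]
            exact h5

/-- positions inside a sub-block -/
lemma walk {m M L : ℕ} {α : ZMod L → Lab (m * M + 1)} (hα : Cyc α) (x : ZMod L) (q : ℕ)
    (hq : q < M) (hi : ((α x).2 : ℕ) = m * q + 1) :
    ∀ t : ℕ, t < m → ((α (x + (t : ZMod L))).2 : ℕ) = m * q + 1 + t := by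
  intro t
  induction t with
  | zero =>
    intro _
    rw [Nat.cast_zero, add_zero, hi]
  | succ t ih =>
    intro ht
    have h1 := ih (by omega)
    have h2 := (hα (x + ((t + 1 : ℕ) : ZMod L))).2
    have h3 : x + ((t + 1 : ℕ) : ZMod L) - 1 = x + (t : ZMod L) := by
      rw [Nat.cast_add, Nat.cast_one]
      ring
    rw [h3] at h2
    rcases h2 with ⟨_, h4⟩ | ⟨h4, _⟩
    · rw [h4, h1]
      ring
    · exfalso
      rw [h1] at h4
      have h5 : m * (q + 1) ≤ m * M := Nat.mul_le_mul_left m hq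
      rw [Nat.mul_add, Nat.mul_one] at h5
      omega

/-- J5b -/
theorem nonzero : StmNonzero := by
  intro d m M L _ hd hm hmL Φ hΦ θ hθ
  obtain ⟨σ0, hσ0⟩ : ∃ σ, Φ σ ≠ 0 := by
    by_contra hcon
    push Not at hcon
    unfold nrm at hΦ
    rw [Finset.sum_eq_zero fun s _ => by rw [hcon s]; simp] at hΦ
    exact one_ne_zero hΦ.symm
  have hmod : ∀ k : ℕ, k % m < m := fun k => Nat.mod_lt k hm
  let s : Conf d L := fun v =>
    if ((θ.1 v.1).2 : ℕ) = 0 ∨ ((θ.2 v.2).2 : ℕ) = 0 then ⟨1, by omega⟩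
    else if Blk m M (θ.1 v.1).2 (θ.2 v.2).2 then
      σ0 (⟨(((θ.1 v.1).2 : ℕ) - 1) % m, hmod _⟩, ⟨(((θ.2 v.2).2 : ℕ) - 1) % m, hmod _⟩)
    else ⟨0, by omega⟩
  have hg : glob m M Φ θ s ≠ 0 := by
    unfold glob
    rw [Finset.prod_ne_zero_iff]
    intro v _
    unfold fac
    by_cases h1 : ((θ.1 v.1).2 : ℕ) = 0 ∨ ((θ.2 v.2).2 : ℕ) = 0
    · rw [if_pos h1]
      have h2 : s v = ⟨1, by omega⟩ := if_pos h1
      rw [h2, if_pos rfl]
      exact one_ne_zero
    · rw [if_neg h1]
      by_cases h2 : Blk m M (θ.1 v.1).2 (θ.2 v.2).2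
      · rw [if_pos h2]
        by_cases h3 : (((θ.1 v.1).2 : ℕ) - 1) % m = 0 ∧ (((θ.2 v.2).2 : ℕ) - 1) % m = 0
        · rw [if_pos h3]
          have h4 : box m s v = σ0 := by
            funext p
            obtain ⟨hi1, hi2, hj1, hj2, hne⟩ := h2
            obtain ⟨q, hq⟩ : ∃ q, q = (((θ.1 v.1).2 : ℕ) - 1) / m := ⟨_, rfl⟩
            obtain ⟨q', hq'⟩ : ∃ q', q' = (((θ.2 v.2).2 : ℕ) - 1) / m := ⟨_, rfl⟩
            have e1 : ((θ.1 v.1).2 : ℕ) = m * q + 1 := by
              have := Nat.div_add_mod (((θ.1 v.1).2 : ℕ) - 1) m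
              rw [h3.1, ← hq] at this
              omega
            have e2 : ((θ.2 v.2).2 : ℕ) = m * q' + 1 := by
              have := Nat.div_add_mod (((θ.2 v.2).2 : ℕ) - 1) m
              rw [h3.2, ← hq'] at this
              omega
            have hqM : q < M := by
              have h5 : m * q < m * M := by omega
              exact Nat.lt_of_mul_lt_mul_left h5
            have hqM' : q' < M := by
              have h5 : m * q' < m * M := by omega
              exact Nat.lt_of_mul_lt_mul_left h5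
            have w1 := walk hθ.1 v.1 q hqM e1 p.1 p.1.2
            have w2 := walk hθ.2 v.2 q' hqM' e2 p.2 p.2.2
            have b1 : m * q + m ≤ m * M := by
              have h5 : m * (q + 1) ≤ m * M := Nat.mul_le_mul_left m hqM
              rwa [Nat.mul_add, Nat.mul_one] at h5
            have b2 : m * q' + m ≤ m * M := by
              have h5 : m * (q' + 1) ≤ m * M := Nat.mul_le_mul_left m hqM'
              rwa [Nat.mul_add, Nat.mul_one] at h5
            have hp1 := p.1.2
            have hp2 := p.2.2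
            have d1 : (m * q + 1 + (p.1 : ℕ) - 1) / m = q := by
              have h5 : m * q + 1 + (p.1 : ℕ) - 1 = (p.1 : ℕ) + m * q := by omega
              rw [h5, Nat.add_mul_div_left _ _ hm, Nat.div_eq_of_lt hp1, Nat.zero_add]
            have d2 : (m * q' + 1 + (p.2 : ℕ) - 1) / m = q' := by
              have h5 : m * q' + 1 + (p.2 : ℕ) - 1 = (p.2 : ℕ) + m * q' := by omega
              rw [h5, Nat.add_mul_div_left _ _ hm, Nat.div_eq_of_lt hp2, Nat.zero_add]
            have c1 : (m * q + 1 + (p.1 : ℕ) - 1) % m = (p.1 : ℕ) := by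
              have h5 : m * q + 1 + (p.1 : ℕ) - 1 = (p.1 : ℕ) + m * q := by omega
              rw [h5, Nat.add_mul_mod_self_left, Nat.mod_eq_of_lt hp1]
            have c2 : (m * q' + 1 + (p.2 : ℕ) - 1) % m = (p.2 : ℕ) := by
              have h5 : m * q' + 1 + (p.2 : ℕ) - 1 = (p.2 : ℕ) + m * q' := by omega
              rw [h5, Nat.add_mul_mod_self_left, Nat.mod_eq_of_lt hp2]
            have hqq : q ≠ q' := by rw [hq, hq']; exact hne
            show s (v.1 + ((p.1 : ℕ) : ZMod L), v.2 + ((p.2 : ℕ) : ZMod L)) = σ0 p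
            have n1 : ¬ (((θ.1 (v.1 + ((p.1 : ℕ) : ZMod L))).2 : ℕ) = 0 ∨
                ((θ.2 (v.2 + ((p.2 : ℕ) : ZMod L))).2 : ℕ) = 0) := by
              rw [w1, w2]
              omega
            have n2 : Blk m M (θ.1 (v.1 + ((p.1 : ℕ) : ZMod L))).2
                (θ.2 (v.2 + ((p.2 : ℕ) : ZMod L))).2 := by
              rw [w1, w2]
              refine ⟨by omega, by omega, by omega, by omega, ?_⟩
              rw [d1, d2]
              exact hqq
            have e3 : s (v.1 + ((p.1 : ℕ) : ZMod L), v.2 + ((p.2 : ℕ) : ZMod L)) =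
                σ0 (⟨(((θ.1 (v.1 + ((p.1 : ℕ) : ZMod L))).2 : ℕ) - 1) % m, hmod _⟩,
                  ⟨(((θ.2 (v.2 + ((p.2 : ℕ) : ZMod L))).2 : ℕ) - 1) % m, hmod _⟩) := by
              show (if _ then _ else _) = _
              rw [if_neg n1, if_pos n2]
            rw [e3]
            congr 1
            refine Prod.ext (Fin.ext ?_) (Fin.ext ?_)
            · show (((θ.1 (v.1 + ((p.1 : ℕ) : ZMod L))).2 : ℕ) - 1) % m = (p.1 : ℕ)
              rw [w1, c1]
            · show (((θ.2 (v.2 + ((p.2 : ℕ) : ZMod L))).2 : ℕ) - 1) % m = (p.2 : ℕ)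
              rw [w2, c2]
          rw [h4]
          exact hσ0
        · rw [if_neg h3]
          exact one_ne_zero
      · rw [if_neg h2]
        have h3 : s v = ⟨0, by omega⟩ := by
          show (if _ then _ else _) = _
          rw [if_neg h1, if_neg h2]
        rw [h3, if_pos rfl]
        exact one_ne_zero
  unfold nrm
  have h1 : 0 < ‖glob m M Φ θ s‖ ^ 2 := by
    have := norm_pos_iff.2 hg
    positivity
  exact lt_of_lt_of_le h1 (Finset.single_le_sum (f := fun s => ‖glob m M Φ θ s‖ ^ 2)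
    (fun i _ => by positivity) (Finset.mem_univ s))

end Pool.Agent.Y794.PE
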